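import Pool.Agent.Helper41_IR.Stmts
import Pool.Agent.Helper61_BED.Cov

/-!
# Module MEAN of squad IR
-/

set_option autoImplicit false

open MeasureTheory ProbabilityTheory

open scoped ENNReal NNReal BigOperators

noncomputable section

namespace Pool.Agent.IR.H62

open Matrix Pool.Agent.Anderson Pool.Agent.Loc Pool.Agent.BED Pool.Agent.IR

variable {d M : ℕ} [NeZero M]

/-- the plane waves are eigenfunctions of the Laplacian -/
theorem cos_ph_ev (θ : Tor d M) (i : Fin d) :
    Real.cos (ph θ (ev i)) = Real.cos (2 * Real.pi * ((θ i).valMinAbs : ℝ) / M) := by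
  rw [cos_ph_of (a := fun j => (θ j).valMinAbs) (b := fun j => if j = i then 1 else 0)
    (fun j => ZMod.coe_valMinAbs _) (fun j => by
      unfold ev
      by_cases h : j = i
      · subst h; simp
      · simp [h])]
  unfold phI
  congr 2
  simp

theorem lap_cos (θ x : Tor d M) :
    ∑ i : Fin d, (Real.cos (ph θ (x + ev i)) + Real.cos (ph θ (x - ev i))) =
      (2 * d - om θ) * Real.cos (ph θ x) := by
  have h1 : ∀ i : Fin d, Real.cos (ph θ (x + ev i)) + Real.cos (ph θ (x - ev i)) =
      2 * Real.cos (2 * Real.pi * ((θ i).valMinAbs : ℝ) / M) * Real.cos (ph θ x) := fun i => by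
    rw [cos_ph_add, cos_ph_sub, Real.cos_add, Real.cos_sub, cos_ph_ev θ i]
    ring
  have h2 : (2 * d - om θ : ℝ) = ∑ i : Fin d, 2 * Real.cos (2 * Real.pi * ((θ i).valMinAbs : ℝ) / M) := by
    have h3 : (2 * d : ℝ) = ∑ _i : Fin d, (2 : ℝ) := by simp; ring
    unfold om
    rw [h3, ← Finset.sum_sub_distrib]
    exact Finset.sum_congr rfl fun i _ => by ring
  rw [h2, Finset.sum_mul]
  exact Finset.sum_congr rfl fun i _ => h1 i

theorem lap_sin (θ x : Tor d M) :
    ∑ i : Fin d, (Real.sin (ph θ (x + ev i)) + Real.sin (ph θ (x - ev i))) =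
      (2 * d - om θ) * Real.sin (ph θ x) := by
  have h1 : ∀ i : Fin d, Real.sin (ph θ (x + ev i)) + Real.sin (ph θ (x - ev i)) =
      2 * Real.cos (2 * Real.pi * ((θ i).valMinAbs : ℝ) / M) * Real.sin (ph θ x) := fun i => by
    rw [sin_ph_add, sin_ph_sub, Real.sin_add, Real.sin_sub, cos_ph_ev θ i]
    ring
  have h2 : (2 * d - om θ : ℝ) = ∑ i : Fin d, 2 * Real.cos (2 * Real.pi * ((θ i).valMinAbs : ℝ) / M) := by
    have h3 : (2 * d : ℝ) = ∑ _i : Fin d, (2 : ℝ) := by simp; ring
    unfold om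
    rw [h3, ← Finset.sum_sub_distrib]
    exact Finset.sum_congr rfl fun i _ => by ring
  rw [h2, Finset.sum_mul]
  exact Finset.sum_congr rfl fun i _ => h1 i

theorem ip_mul_eq (A : Matrix (Tor d M) (Tor d M) ℝ) (w : Tor d M → ℝ) :
    ip w (A *ᵥ w) = ∑ x, ∑ y, w x * w y * A x y := by
  unfold ip
  simp only [Matrix.mulVec, dotProduct, Finset.mul_sum]
  exact Finset.sum_congr rfl fun x _ => Finset.sum_congr rfl fun y _ => by ring

theorem sqn_cos_sin (θ : Tor d M) :
    sqn (fun x => Real.cos (ph θ x)) + sqn (fun x => Real.sin (ph θ x)) = (M : ℝ) ^ d := by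
  unfold sqn
  rw [← Finset.sum_add_distrib]
  simp only [Real.cos_sq_add_sin_sq]
  rw [Finset.sum_const, Finset.card_univ, nsmul_eq_mul, mul_one]
  simp [Tor]

/-- summation over differences -/
theorem sum_diff (f : Tor d M → ℝ) : ∑ x, ∑ y : Tor d M, f (y - x) = (M : ℝ) ^ d * ∑ y, f y := by
  have h : ∀ x : Tor d M, ∑ y : Tor d M, f (y - x) = ∑ y, f y := fun x =>
    Equiv.sum_comp (Equiv.subRight x) f
  rw [Finset.sum_congr rfl fun x _ => h x, Finset.sum_const, Finset.card_univ, nsmul_eq_mul]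
  congr 1
  simp [Tor]

/-- MEAN -/
theorem mean (hGap : GapStmt) (hCt : CtStmt) (hCoer : CoerStmt) (hZero : ZeroStmt)
    (hCovb : CovbStmt) (hMeas : MeasStmt) : MeanStmt := by
  intro d hd
  obtain ⟨C, hC, hCT⟩ := hCt d hd
  refine ⟨C, hC, ?_⟩
  intro M l _ z μ E δ v hP hδ hδ' hG
  have hprob : IsProbabilityMeasure (gau d M v) := by
    unfold gau; infer_instance
  set G : Set (Tor d M → ℝ) := Gd d M δ z μ with hGdef
  have hGm : MeasurableSet G := (hMeas d M l E δ z μ).2.2
  have hBm : ∀ x y, Measurable fun V : Tor d M → ℝ => BB l E V x y := (hMeas d M l E δ z μ).2.1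
  set m : ℝ := (gau d M v G).toReal with hm
  have hm0 : 0 < m := ENNReal.toReal_pos hG (measure_ne_top _ _)
  have hflat : ∀ V ∈ G, FlatD (1 / 50) z μ V := fun V hV => FlatD.mono hV hP.hμ.le hδ'
  have hl0 : (0 : ℝ) < (l : ℝ) ^ d := by
    have := hP.hl
    positivity
  have hbd : ∀ V ∈ G, ∀ x y, |BB l E V x y| ≤
      C * Real.exp (-((nd (x - y) : ℝ) / (3 * d * l))) / (l : ℝ) ^ d := fun V hV x y => by
    rw [le_div_iff₀ hl0, mul_comm]
    exact (hCT M l z μ E V hP (hflat V hV)).2 x y
  have hint : ∀ x y, IntegrableOn (fun V : Tor d M → ℝ => BB l E V x y) G (gau d M v) :=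
    fun x y => by
      refine Measure.integrableOn_of_bounded (M := C * Real.exp (-((nd (x - y) : ℝ) /
        (3 * d * l))) / (l : ℝ) ^ d) (measure_ne_top _ _) (hBm x y).aestronglyMeasurable ?_
      rw [ae_restrict_iff' hGm]
      exact Filter.Eventually.of_forall fun V hV => by
        rw [Real.norm_eq_abs]
        exact hbd V hV x y
  -- translation
  have h1 : ∀ x y, (∫ V in G, BB l E V x y ∂(gau d M v)) / m = bbar v δ z μ l E (y - x) := by
    intro x y
    unfold bbar
    rw [← hGdef, ← hm]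
    congr 1
    have hmp := (H61.cov d M 0 0 x).2.2.2.2.2 v
    have hpre : tr x ⁻¹' G = G := by
      ext V
      exact (hCovb d M l E V x).2.2 δ z μ
    have hmp2 := hmp.restrict_preimage hGm
    rw [hpre] at hmp2
    have e1 : ∀ V : Tor d M → ℝ, BB l E V x y = BB l E (tr x V) 0 (y - x) := fun V => by
      rw [(hCovb d M l E V x).2.1 0 (y - x)]
      congr 1 <;> abel
    simp only [e1]
    rw [← integral_map (φ := tr x) (f := fun V => BB l E V 0 (y - x)) hmp2.measurable.aemeasurable
      (hBm 0 (y - x)).aestronglyMeasurable, hmp2.map_eq]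
  refine ⟨h1, ?_⟩
  -- averages of linear combinations
  have hlin : ∀ a : Tor d M → Tor d M → ℝ,
      (∫ V in G, (∑ x, ∑ y, a x y * BB l E V x y) ∂(gau d M v)) / m =
        ∑ x, ∑ y, a x y * bbar v δ z μ l E (y - x) := by
    intro a
    rw [integral_finsetSum _ fun x _ => integrable_finsetSum _ fun y _ =>
      (hint x y).const_mul (a x y), Finset.sum_div]
    refine Finset.sum_congr rfl fun x _ => ?_
    rw [integral_finsetSum _ fun y _ => (hint x y).const_mul (a x y), Finset.sum_div]
    refine Finset.sum_congr rfl fun y _ => ?_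
    rw [integral_const_mul, mul_div_assoc, h1]
  have hintl : ∀ a : Tor d M → Tor d M → ℝ,
      IntegrableOn (fun V : Tor d M → ℝ => ∑ x, ∑ y, a x y * BB l E V x y) G (gau d M v) :=
    fun a => integrable_finsetSum _ fun x _ => integrable_finsetSum _ fun y _ =>
      (hint x y).const_mul (a x y)
  have hle : ∀ (a : Tor d M → Tor d M → ℝ) (K : ℝ),
      (∀ V ∈ G, ∑ x, ∑ y, a x y * BB l E V x y ≤ K) →
        ∑ x, ∑ y, a x y * bbar v δ z μ l E (y - x) ≤ K := by
    intro a K hK
    rw [← hlin a, div_le_iff₀ hm0]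
    calc ∫ V in G, (∑ x, ∑ y, a x y * BB l E V x y) ∂(gau d M v) ≤
          ∫ _V in G, K ∂(gau d M v) :=
          setIntegral_mono_on (hintl a) (integrableOn_const (measure_ne_top _ _)) hGm hK
      _ = K * m := by
          rw [setIntegral_const, smul_eq_mul, mul_comm]
          rfl
  intro τ hτ
  refine ⟨?_, ?_, ?_, ?_⟩
  · intro y
    have e1 := h1 y 0
    rw [zero_sub] at e1
    have e2 := h1 0 y
    rw [sub_zero] at e2
    rw [← e1, ← e2]
    congr 1
    refine setIntegral_congr_fun hGm fun V hV => ?_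
    have hs := (hGap d M l z μ E V hP (hflat V hV)).2.2.2.2.1 y 0
    exact hs
  · intro y
    have e2 := h1 0 y
    rw [sub_zero] at e2
    rw [← e2, abs_div, abs_of_pos hm0, mul_div_assoc', div_le_iff₀ hm0]
    have h3 : |∫ V in G, BB l E V 0 y ∂(gau d M v)| ≤
        C * Real.exp (-((nd y : ℝ) / (3 * d * l))) / (l : ℝ) ^ d * m := by
      have h4 := norm_setIntegral_le_of_norm_le_const (μ := gau d M v) (s := G)
        (f := fun V => BB l E V 0 y)
        (C := C * Real.exp (-((nd y : ℝ) / (3 * d * l))) / (l : ℝ) ^ d)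
        (measure_lt_top _ _) (fun V hV => by
          rw [Real.norm_eq_abs]
          have := hbd V hV 0 y
          rwa [zero_sub, nd_neg] at this)
      rw [Real.norm_eq_abs] at h4
      exact h4
    calc (l : ℝ) ^ d * |∫ V in G, BB l E V 0 y ∂(gau d M v)| ≤
          (l : ℝ) ^ d * (C * Real.exp (-((nd y : ℝ) / (3 * d * l))) / (l : ℝ) ^ d * m) :=
          mul_le_mul_of_nonneg_left h3 hl0.le
      _ = C * Real.exp (-((nd y : ℝ) / (3 * d * l))) * m := by field_simp
  · intro θ
    set K : ℝ := (1 + d * ((z - E) * (l : ℝ) ^ 2 + 4 * d * δ ^ 2)) *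
      (2 / (2 + 2 / 5 * d * (l : ℝ) ^ 2 * om θ)) with hK
    have hMd : (0 : ℝ) < (M : ℝ) ^ d := by
      have : (0 : ℝ) < M := by exact_mod_cast Nat.pos_of_ne_zero (NeZero.ne M)
      positivity
    have h5 := hle (fun x y => Real.cos (ph θ x) * Real.cos (ph θ y) +
      Real.sin (ph θ x) * Real.sin (ph θ y)) (K * (M : ℝ) ^ d) (fun V hV => by
        have c1 := hCoer d M l z μ E δ V hP hδ hδ' hV (fun x => Real.cos (ph θ x)) (om θ)
          (om_nonneg θ) (fun x => lap_cos θ x)
        have c2 := hCoer d M l z μ E δ V hP hδ hδ' hV (fun x => Real.sin (ph θ x)) (om θ)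
          (om_nonneg θ) (fun x => lap_sin θ x)
        rw [← hK, ip_mul_eq] at c1 c2
        have e : ∑ x, ∑ y, (Real.cos (ph θ x) * Real.cos (ph θ y) +
            Real.sin (ph θ x) * Real.sin (ph θ y)) * BB l E V x y =
            ∑ x, ∑ y, Real.cos (ph θ x) * Real.cos (ph θ y) * BB l E V x y +
            ∑ x, ∑ y, Real.sin (ph θ x) * Real.sin (ph θ y) * BB l E V x y := by
          rw [← Finset.sum_add_distrib]
          refine Finset.sum_congr rfl fun x _ => ?_
          rw [← Finset.sum_add_distrib]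
          exact Finset.sum_congr rfl fun y _ => by ring
        rw [e, ← sqn_cos_sin θ, mul_add]
        exact add_le_add c1 c2)
    have e : ∑ x, ∑ y, (Real.cos (ph θ x) * Real.cos (ph θ y) +
        Real.sin (ph θ x) * Real.sin (ph θ y)) * bbar v δ z μ l E (y - x) =
        (M : ℝ) ^ d * bh (bbar v δ z μ l E) θ := by
      rw [show bh (bbar v δ z μ l E) θ = ∑ y, bbar v δ z μ l E y * Real.cos (ph θ y) from rfl,
        ← sum_diff (fun y => bbar v δ z μ l E y * Real.cos (ph θ y))]
      refine Finset.sum_congr rfl fun x _ => Finset.sum_congr rfl fun y _ => ?_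
      rw [cos_ph_sub, Real.cos_sub]
      ring
    rw [e, mul_comm K] at h5
    exact le_of_mul_le_mul_left h5 hMd
  · have hMd : (0 : ℝ) < (M : ℝ) ^ d := by
      have : (0 : ℝ) < M := by exact_mod_cast Nat.pos_of_ne_zero (NeZero.ne M)
      positivity
    set K : ℝ := (1 - 4 * δ) * (sL d l / (sL d l - (z - E) + 1 / μ)) with hK
    have h5 := hle (fun _ _ => -1) (-(K * (M : ℝ) ^ d)) (fun V hV => by
      have c1 := hZero d M l z μ E δ V hP hδ hδ' hV
      rw [← hK] at c1
      simp only [neg_mul, one_mul, Finset.sum_neg_distrib]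
      linarith)
    simp only [neg_mul, one_mul, Finset.sum_neg_distrib] at h5
    rw [sum_diff (fun y => bbar v δ z μ l E y)] at h5
    have e : bh (bbar v δ z μ l E) (0 : Tor d M) = ∑ y : Tor d M, bbar v δ z μ l E y := by
      unfold bh
      refine Finset.sum_congr rfl fun y _ => ?_
      rw [ph_zero_left, Real.cos_zero, mul_one]
    rw [e]
    refine hτ.trans ?_
    have h6 : K * (M : ℝ) ^ d ≤ (M : ℝ) ^ d * ∑ y : Tor d M, bbar v δ z μ l E y := by linarith
    rw [mul_comm K] at h6
    exact le_of_mul_le_mul_left h6 hMd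

end Pool.Agent.IR.H62
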