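import Pool.Agent.Helper41_IR.Stmts
import Pool.Agent.Helper54_BED.Next

/-!
# Module AVG of squad IR
-/

set_option autoImplicit false

open MeasureTheory ProbabilityTheory

open scoped ENNReal NNReal BigOperators

noncomputable section

namespace Pool.Agent.IR.H62A

open Matrix Pool.Agent.Anderson Pool.Agent.Loc Pool.Agent.BED Pool.Agent.IR

variable {d M : ℕ} [NeZero M]

/-- Gaussian tail -/
theorem tail1 {v : ℝ≥0} (hv : 0 < v) {s : ℝ} (hs : 0 ≤ s) :
    gaussianReal 0 v {t | s < |t|} ≤ ENNReal.ofReal (2 * Real.exp (-(s ^ 2 / (2 * v)))) := by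
  have hv0 : (0 : ℝ) < v := hv
  have hint : ∀ c : ℝ, Integrable (fun x : ℝ => Real.exp (c * x)) (gaussianReal 0 v) :=
    fun c => integrable_exp_mul_gaussianReal c
  have h1 : (gaussianReal 0 v).real {t : ℝ | s ≤ t} ≤ Real.exp (-(s ^ 2 / (2 * v))) := by
    have := measure_ge_le_exp_mul_mgf (μ := gaussianReal 0 v) (X := fun x => x) (t := s / v) s
      (by positivity) (hint (s / v))
    rw [mgf_fun_id_gaussianReal] at this
    refine this.trans (le_of_eq ?_)
    rw [← Real.exp_add]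
    congr 1
    field_simp
    ring
  have h2 : (gaussianReal 0 v).real {t : ℝ | t ≤ -s} ≤ Real.exp (-(s ^ 2 / (2 * v))) := by
    have := measure_le_le_exp_mul_mgf (μ := gaussianReal 0 v) (X := fun x => x) (t := -(s / v)) (-s)
      (by rw [neg_nonpos]; positivity) (hint (-(s / v)))
    rw [mgf_fun_id_gaussianReal] at this
    refine this.trans (le_of_eq ?_)
    rw [← Real.exp_add]
    congr 1
    field_simp
    ring
  have h3 : {t : ℝ | s < |t|} ⊆ {t : ℝ | s ≤ t} ∪ {t : ℝ | t ≤ -s} := by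
    intro t ht
    simp only [Set.mem_ofPred_eq] at ht
    rcases lt_abs.1 ht with h | h
    · exact Or.inl h.le
    · exact Or.inr (by simp only [Set.mem_ofPred_eq]; linarith)
  have h4 : (gaussianReal 0 v).real {t : ℝ | s < |t|} ≤ 2 * Real.exp (-(s ^ 2 / (2 * v))) := by
    calc (gaussianReal 0 v).real {t : ℝ | s < |t|} ≤
          (gaussianReal 0 v).real ({t : ℝ | s ≤ t} ∪ {t : ℝ | t ≤ -s}) := measureReal_mono h3
      _ ≤ (gaussianReal 0 v).real {t : ℝ | s ≤ t} + (gaussianReal 0 v).real {t : ℝ | t ≤ -s} :=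
          measureReal_union_le _ _
      _ ≤ _ := by linarith
  rw [← ENNReal.ofReal_toReal (measure_ne_top (gaussianReal 0 v) _)]
  exact ENNReal.ofReal_le_ofReal h4

theorem tailT {v : ℝ≥0} (hv : 0 < v) {s : ℝ} (hs : 0 ≤ s) :
    gau d M v {D | ∃ y, s < |D y|} ≤
      ENNReal.ofReal ((M : ℝ) ^ d * (2 * Real.exp (-(s ^ 2 / (2 * v))))) := by
  have h1 : ∀ y : Tor d M, gau d M v {D | s < |D y|} ≤
      ENNReal.ofReal (2 * Real.exp (-(s ^ 2 / (2 * v)))) := fun y => by
    have h3 := (measurePreserving_eval (fun _ : Tor d M => gaussianReal 0 v) y)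
    have h4 : MeasurableSet {t : ℝ | s < |t|} := measurableSet_lt measurable_const (by fun_prop)
    have h5 := h3.measure_preimage h4.nullMeasurableSet
    refine le_trans (le_of_eq ?_) (tail1 hv hs)
    rw [← h5]
    rfl
  have h2 := gau_union (d := d) (M := M) (v := v) (A := ∅) (S := fun y => {D | s < |D y|})
    (a := 0) (q := 2 * Real.exp (-(s ^ 2 / (2 * v)))) le_rfl (by positivity) (by simp) h1
  rw [zero_add, Set.empty_union] at h2
  refine (measure_mono ?_).trans h2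
  rintro D ⟨y, hy⟩
  exact Set.mem_iUnion.2 ⟨y, hy⟩

/-- continuity of the two quadratic forms -/
theorem cont_NK (b : Tor d M → ℝ) (ε : ℝ) : Continuous fun w : Tor d M → ℝ => NK b ε w := by
  unfold NK ft
  fun_prop

theorem cont_dB (l : ℕ) (E : ℝ) (V D : Tor d M → ℝ) :
    Continuous fun w : Tor d M → ℝ => dB l E V D w := by
  unfold dB
  simp only [Matrix.mulVec, dotProduct]
  fun_prop

theorem meas_dB (hMeas : MeasStmt) (l : ℕ) (E : ℝ) (w : Tor d M → ℝ) :
    Measurable fun q : (Tor d M → ℝ) × (Tor d M → ℝ) => dB l E q.1 q.2 w := by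
  unfold dB
  refine Measurable.const_mul ?_ _
  refine Finset.measurable_sum _ fun y _ => ?_
  refine Measurable.mul ((measurable_pi_apply y).comp measurable_snd) ?_
  refine Measurable.pow_const ?_ 2
  simp only [Matrix.mulVec, dotProduct]
  refine Finset.measurable_sum _ fun x _ => ?_
  refine Measurable.mul_const ?_ _
  exact ((hMeas d M l E 0 0 0).1 y x).comp measurable_fst

/-- the exceptional pairs: the derivative is large -/
def S3 (d M : ℕ) [NeZero M] (l : ℕ) (E δ z μ : ℝ) (b : Tor d M → ℝ) (ε ρ s : ℝ) :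
    Set ((Tor d M → ℝ) × (Tor d M → ℝ)) :=
  {q | q.1 ∈ Gd d M δ z μ ∧ (∀ y, |q.2 y| ≤ s) ∧ ∃ w, ρ * NK b ε w < |dB l E q.1 q.2 w|}

theorem meas_S3 (hMeas : MeasStmt) (l : ℕ) (E δ z μ : ℝ) (b : Tor d M → ℝ) (ε ρ s : ℝ) :
    MeasurableSet (S3 d M l E δ z μ b ε ρ s) := by
  have h1 : MeasurableSet {q : (Tor d M → ℝ) × (Tor d M → ℝ) | q.1 ∈ Gd d M δ z μ} :=
    measurable_fst (hMeas d M l E δ z μ).2.2
  have h2 : MeasurableSet {q : (Tor d M → ℝ) × (Tor d M → ℝ) | ∀ y, |q.2 y| ≤ s} := by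
    rw [Set.ofPred_forall]
    refine MeasurableSet.iInter fun y => measurableSet_le ?_ measurable_const
    exact ((measurable_pi_apply y).comp measurable_snd).norm
  have h3 : {q : (Tor d M → ℝ) × (Tor d M → ℝ) | ∃ w, ρ * NK b ε w < |dB l E q.1 q.2 w|} =
      ⋃ n : ℕ, {q : (Tor d M → ℝ) × (Tor d M → ℝ) |
        ρ * NK b ε (TopologicalSpace.denseSeq (Tor d M → ℝ) n) <
          |dB l E q.1 q.2 (TopologicalSpace.denseSeq (Tor d M → ℝ) n)|} := by
    ext q
    simp only [Set.mem_iUnion, Set.mem_ofPred_eq]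
    constructor
    · rintro ⟨w, hw⟩
      have ho : IsOpen {w : Tor d M → ℝ | ρ * NK b ε w < |dB l E q.1 q.2 w|} :=
        isOpen_lt (continuous_const.mul (cont_NK b ε)) (cont_dB l E q.1 q.2).abs
      obtain ⟨n, hn⟩ := (TopologicalSpace.denseRange_denseSeq (Tor d M → ℝ)).exists_mem_open ho
        ⟨w, hw⟩
      exact ⟨n, hn⟩
    · rintro ⟨n, hn⟩
      exact ⟨_, hn⟩
  have h4 : MeasurableSet {q : (Tor d M → ℝ) × (Tor d M → ℝ) |
      ∃ w, ρ * NK b ε w < |dB l E q.1 q.2 w|} := by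
    rw [h3]
    refine MeasurableSet.iUnion fun n => measurableSet_lt measurable_const ?_
    exact (meas_dB hMeas l E _).norm
  exact h1.inter (h2.inter h4)

/-- the set of all exceptional pairs for one angle -/
def SB (d M : ℕ) [NeZero M] (l : ℕ) (E δ z μ : ℝ) (b : Tor d M → ℝ) (ε ρ s : ℝ) :
    Set ((Tor d M → ℝ) × (Tor d M → ℝ)) :=
  {q | q.1 ∉ Gd d M δ z μ} ∪ ({q | ∃ y, s < |q.2 y|} ∪ S3 d M l E δ z μ b ε ρ s)

theorem meas_SB (hMeas : MeasStmt) (l : ℕ) (E δ z μ : ℝ) (b : Tor d M → ℝ) (ε ρ s : ℝ) :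
    MeasurableSet (SB d M l E δ z μ b ε ρ s) := by
  have h1 : MeasurableSet {q : (Tor d M → ℝ) × (Tor d M → ℝ) | q.1 ∉ Gd d M δ z μ} :=
    (measurable_fst (hMeas d M l E δ z μ).2.2).compl
  have h2 : MeasurableSet {q : (Tor d M → ℝ) × (Tor d M → ℝ) | ∃ y, s < |q.2 y|} := by
    rw [Set.ofPred_exists]
    refine MeasurableSet.iUnion fun y => measurableSet_lt measurable_const ?_
    exact ((measurable_pi_apply y).comp measurable_snd).norm
  exact h1.union (h2.union (meas_S3 hMeas l E δ z μ b ε ρ s))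

/-- the probability of the exceptional pairs for one angle -/
theorem prob_SB (hMeas : MeasStmt) {l : ℕ} {E δ z μ : ℝ} {b : Tor d M → ℝ} {ε ρ s : ℝ}
    {v : ℝ≥0} (hv : 0 < v) (hs : 0 ≤ s) {p p2 p3 : ℝ} (hp : 0 ≤ p) (hp2 : 0 ≤ p2) (hp3 : 0 ≤ p3)
    (h1 : gau d M v (Gd d M δ z μ)ᶜ ≤ ENNReal.ofReal p)
    (h2 : (M : ℝ) ^ d * (2 * Real.exp (-(s ^ 2 / (2 * v)))) ≤ p2)
    (h3 : ∀ V ∈ Gd d M δ z μ, gau d M v {D | (∀ y, |D y| ≤ s) ∧
      ∃ w, ρ * NK b ε w < |dB l E V D w|} ≤ ENNReal.ofReal p3) :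
    ((gau d M v).prod (gau d M v)) (SB d M l E δ z μ b ε ρ s) ≤
      ENNReal.ofReal (p + (p2 + p3)) := by
  have hprob : IsProbabilityMeasure (gau d M v) := gau_isProb v
  have e1 : ((gau d M v).prod (gau d M v)) {q | q.1 ∉ Gd d M δ z μ} ≤ ENNReal.ofReal p := by
    have e : {q : (Tor d M → ℝ) × (Tor d M → ℝ) | q.1 ∉ Gd d M δ z μ} =
        (Gd d M δ z μ)ᶜ ×ˢ Set.univ := by
      ext q
      simp
    rw [e, Measure.prod_prod, measure_univ, mul_one]
    exact h1
  have e2 : ((gau d M v).prod (gau d M v)) {q | ∃ y, s < |q.2 y|} ≤ ENNReal.ofReal p2 := by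
    have e : {q : (Tor d M → ℝ) × (Tor d M → ℝ) | ∃ y, s < |q.2 y|} =
        Set.univ ×ˢ {D | ∃ y, s < |D y|} := by
      ext q
      simp
    rw [e, Measure.prod_prod, measure_univ, one_mul]
    exact (tailT hv hs).trans (ENNReal.ofReal_le_ofReal h2)
  have e3 : ((gau d M v).prod (gau d M v)) (S3 d M l E δ z μ b ε ρ s) ≤ ENNReal.ofReal p3 := by
    rw [Measure.prod_apply (meas_S3 hMeas l E δ z μ b ε ρ s)]
    calc ∫⁻ V, gau d M v (Prod.mk V ⁻¹' S3 d M l E δ z μ b ε ρ s) ∂(gau d M v) ≤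
          ∫⁻ _V, ENNReal.ofReal p3 ∂(gau d M v) := by
          refine lintegral_mono fun V => ?_
          by_cases hV : V ∈ Gd d M δ z μ
          · refine le_trans (le_of_eq ?_) (h3 V hV)
            congr 1
            ext D
            simp [S3, hV]
          · have : Prod.mk V ⁻¹' S3 d M l E δ z μ b ε ρ s = ∅ := by
              ext D
              simp [S3, hV]
            rw [this, measure_empty]
            exact zero_le
      _ = ENNReal.ofReal p3 := by simp
  calc ((gau d M v).prod (gau d M v)) (SB d M l E δ z μ b ε ρ s) ≤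
        ENNReal.ofReal p + (ENNReal.ofReal p2 + ENNReal.ofReal p3) :=
        (measure_union_le _ _).trans (add_le_add e1 ((measure_union_le _ _).trans
          (add_le_add e2 e3)))
    _ = ENNReal.ofReal (p + (p2 + p3)) := by
        rw [ENNReal.ofReal_add hp (add_nonneg hp2 hp3), ENNReal.ofReal_add hp2 hp3]

/-- the set of all exceptional pairs -/
def SA (d M : ℕ) [NeZero M] (l : ℕ) (E δ z μ : ℝ) (b : Tor d M → ℝ) (ε ρ s : ℝ) (N : ℕ) :
    Set ((Tor d M → ℝ) × (Tor d M → ℝ)) :=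
  ⋃ j ∈ Finset.range (N + 1), (fun q : (Tor d M → ℝ) × (Tor d M → ℝ) =>
    (rotV (ang N j) q.1 q.2, rotD (ang N j) q.1 q.2)) ⁻¹' SB d M l E δ z μ b ε ρ s

theorem meas_SA (hMeas : MeasStmt) (hRot : RotStmt) (l : ℕ) (E δ z μ : ℝ) (b : Tor d M → ℝ)
    (ε ρ s : ℝ) (N : ℕ) : MeasurableSet (SA d M l E δ z μ b ε ρ s N) := by
  refine Finset.measurableSet_biUnion _ fun j _ => ?_
  exact (hRot (Tor d M) 1 (ang N j)).measurable (meas_SB hMeas l E δ z μ b ε ρ s)

theorem prob_SA (hMeas : MeasStmt) (hRot : RotStmt) {l : ℕ} {E δ z μ : ℝ} {b : Tor d M → ℝ}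
    {ε ρ s : ℝ} {v : ℝ≥0} {N : ℕ} {p : ℝ}
    (h : ((gau d M v).prod (gau d M v)) (SB d M l E δ z μ b ε ρ s) ≤ ENNReal.ofReal p) :
    ((gau d M v).prod (gau d M v)) (SA d M l E δ z μ b ε ρ s N) ≤
      ENNReal.ofReal ((N + 1) * p) := by
  unfold SA
  refine (measure_biUnion_finset_le _ _).trans ?_
  calc ∑ j ∈ Finset.range (N + 1), ((gau d M v).prod (gau d M v))
        ((fun q : (Tor d M → ℝ) × (Tor d M → ℝ) =>
          (rotV (ang N j) q.1 q.2, rotD (ang N j) q.1 q.2)) ⁻¹' SB d M l E δ z μ b ε ρ s) ≤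
        ∑ _j ∈ Finset.range (N + 1), ENNReal.ofReal p := by
        refine Finset.sum_le_sum fun j _ => ?_
        have h1 := (hRot (Tor d M) v (ang N j)).measure_preimage
          (meas_SB hMeas l E δ z μ b ε ρ s).nullMeasurableSet
        exact (le_of_eq h1).trans h
    _ = ENNReal.ofReal ((N + 1) * p) := by
        rw [Finset.sum_const, Finset.card_range, nsmul_eq_mul, ENNReal.ofReal_mul (by positivity)]
        congr 1
        rw [ENNReal.ofReal_add (by positivity) (by norm_num), ENNReal.ofReal_natCast,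
          ENNReal.ofReal_one]
        push_cast
        rfl

/-- Markov's inequality: for most `V` few `V'` are exceptional -/
theorem markov (hMeas : MeasStmt) (hRot : RotStmt) {l : ℕ} {E δ z μ : ℝ} {b : Tor d M → ℝ}
    {ε ρ s : ℝ} {v : ℝ≥0} {N : ℕ} {p η : ℝ} (hη : 0 < η)
    (h : ((gau d M v).prod (gau d M v)) (SA d M l E δ z μ b ε ρ s N) ≤ ENNReal.ofReal p) :
    gau d M v {V | ENNReal.ofReal η ≤ gau d M v (Prod.mk V ⁻¹' SA d M l E δ z μ b ε ρ s N)} ≤
      ENNReal.ofReal (p / η) := by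
  have hprob : IsProbabilityMeasure (gau d M v) := gau_isProb v
  have hm := meas_SA hMeas hRot l E δ z μ b ε ρ s N
  have h1 := meas_ge_le_lintegral_div (μ := gau d M v)
    (measurable_measure_prodMk_left hm (ν := gau d M v)).aemeasurable (ε := ENNReal.ofReal η)
    (by rw [Ne, ENNReal.ofReal_eq_zero, not_le]; exact hη) ENNReal.ofReal_ne_top
  rw [← Measure.prod_apply hm] at h1
  refine h1.trans ?_
  rw [ENNReal.ofReal_div_of_pos hη]
  exact ENNReal.div_le_div_right h _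

theorem ip_mul_eq (A : Matrix (Tor d M) (Tor d M) ℝ) (w : Tor d M → ℝ) :
    ip w (A *ᵥ w) = ∑ x, ∑ y, w x * w y * A x y := by
  unfold ip
  simp only [Matrix.mulVec, dotProduct, Finset.mul_sum]
  exact Finset.sum_congr rfl fun x _ => Finset.sum_congr rfl fun y _ => by ring

theorem sqn_le_NK (hFour : FourStmt) (b : Tor d M → ℝ) (ε : ℝ) (w : Tor d M → ℝ) :
    ε * sqn w ≤ NK b ε w := by
  rw [← (hFour d M).1 w, Finset.mul_sum]
  unfold NK
  refine Finset.sum_le_sum fun θ _ => mul_le_mul_of_nonneg_right ?_ (ft_nonneg w θ)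
  refine Real.le_sqrt_of_sq_le ?_
  have := sq_nonneg (1 - bh b θ)
  linarith

/-- averaging over the second potential -/
theorem average (hGap : GapStmt) (hMeas : MeasStmt) (hFour : FourStmt) {l : ℕ}
    {z μ E δ : ℝ} {v : ℝ≥0} {b : Tor d M → ℝ} {ε p a : ℝ} (hP : Par d M l z μ E)
    (hδ : δ ≤ 1 / 50)
    (hmean : ∀ x y, (∫ V in Gd d M δ z μ, BB l E V x y ∂(gau d M v)) /
        (gau d M v (Gd d M δ z μ)).toReal = b (y - x))
    (hε : 0 < ε) (hp : p ≤ 1 / 2) (hp0 : 0 ≤ p)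
    (hG : gau d M v (Gd d M δ z μ)ᶜ ≤ ENNReal.ofReal p)
    {V : Tor d M → ℝ} (hV : V ∈ Gd d M δ z μ) {T : Set (Tor d M → ℝ)} (hT : MeasurableSet T)
    (hT2 : gau d M v T ≤ ENNReal.ofReal (ε / 40)) {w : Tor d M → ℝ} (ha : 0 ≤ a)
    (hT3 : ∀ V' ∈ Gd d M δ z μ, V' ∉ T →
      |ip w ((BB l E V' - BB l E V) *ᵥ w)| ≤ a * NK b ε w) :
    |ip w ((BB l E V - cvM b) *ᵥ w)| ≤ (a + 1 / 10) * NK b ε w := by
  have hprob : IsProbabilityMeasure (gau d M v) := gau_isProb v
  set G : Set (Tor d M → ℝ) := Gd d M δ z μ with hGdef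
  have hGm : MeasurableSet G := (hMeas d M l E δ z μ).2.2
  have hBm : ∀ x y, Measurable fun V : Tor d M → ℝ => BB l E V x y := (hMeas d M l E δ z μ).2.1
  set m : ℝ := (gau d M v G).toReal with hm
  have hm1 : 1 / 2 ≤ m := by
    have h1 : (gau d M v Gᶜ).toReal ≤ p := by
      have := ENNReal.toReal_mono ENNReal.ofReal_ne_top hG
      rwa [ENNReal.toReal_ofReal hp0] at this
    have h2 : (gau d M v Gᶜ).toReal = 1 - m := by
      have := probReal_compl_eq_one_sub (μ := gau d M v) hGm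
      exact this
    linarith
  have hm0 : 0 < m := by linarith
  have hflat : ∀ V ∈ G, FlatD (1 / 50) z μ V := fun V hV => FlatD.mono hV hP.hμ.le hδ
  have hNK := NK_nonneg b ε w
  have hsq := sqn_nonneg w
  have hentry : ∀ V ∈ G, ∀ x y, |BB l E V x y| ≤ 2 := fun V hV x y => by
    have h1 := (hGap d M l z μ E V hP (hflat V hV)).2.2.2.2.2.2.2 (Pi.single y 1)
    have h2 : (BB l E V x y) ^ 2 ≤ sqn (BB l E V *ᵥ Pi.single y 1) := by
      have h3 : BB l E V x y = (BB l E V *ᵥ Pi.single y 1) x := (mulVec_single_one _ y x).symm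
      rw [h3]
      exact Finset.single_le_sum (f := fun x => (BB l E V *ᵥ Pi.single y 1) x ^ 2)
        (fun x _ => sq_nonneg _) (Finset.mem_univ x)
    have h4 : sqn (Pi.single y 1 : Tor d M → ℝ) = 1 := by
      rw [← ip_self, ip_single]
      simp
    rw [h4] at h1
    exact abs_le_of_sq_le_sq (by linarith) (by norm_num)
  have hint : ∀ x y, IntegrableOn (fun V : Tor d M → ℝ => BB l E V x y) G (gau d M v) :=
    fun x y => by
      refine Measure.integrableOn_of_bounded (M := 2) (measure_ne_top _ _)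
        (hBm x y).aestronglyMeasurable ?_
      rw [ae_restrict_iff' hGm]
      exact Filter.Eventually.of_forall fun V hV => by
        rw [Real.norm_eq_abs]
        exact hentry V hV x y
  have hintq : IntegrableOn (fun V' : Tor d M → ℝ => ip w (BB l E V' *ᵥ w)) G (gau d M v) := by
    simp only [ip_mul_eq]
    exact integrable_finsetSum _ fun x _ => integrable_finsetSum _ fun y _ =>
      (hint x y).const_mul (w x * w y)
  have hconst : ∀ c : ℝ, Integrable (fun _ : Tor d M → ℝ => c) ((gau d M v).restrict G) :=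
    fun c => integrable_const c
  have hind : Integrable (T.indicator fun _ => 2 / ε * NK b ε w) ((gau d M v).restrict G) :=
    (hconst _).indicator hT
  have hmq : ip w (cvM b *ᵥ w) * m = ∫ V' in G, ip w (BB l E V' *ᵥ w) ∂(gau d M v) := by
    simp only [ip_mul_eq]
    rw [integral_finsetSum _ fun x _ => integrable_finsetSum _ fun y _ =>
      (hint x y).const_mul (w x * w y), Finset.sum_mul]
    refine Finset.sum_congr rfl fun x _ => ?_
    rw [integral_finsetSum _ fun y _ => (hint x y).const_mul (w x * w y), Finset.sum_mul]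
    refine Finset.sum_congr rfl fun y _ => ?_
    rw [integral_const_mul, mul_assoc]
    congr 1
    have := hmean x y
    rw [div_eq_iff hm0.ne'] at this
    rw [this]
    rfl
  have hdiff : ip w ((BB l E V - cvM b) *ᵥ w) * m =
      ∫ V' in G, (ip w (BB l E V *ᵥ w) - ip w (BB l E V' *ᵥ w)) ∂(gau d M v) := by
    rw [integral_sub (hconst _) hintq, ← hmq, setIntegral_const,
      smul_eq_mul, Matrix.sub_mulVec, ip_sub_right, sub_mul]
    congr 1
    rw [mul_comm]
    rfl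
  have hpt : ∀ V' ∈ G, |ip w (BB l E V *ᵥ w) - ip w (BB l E V' *ᵥ w)| ≤
      a * NK b ε w + T.indicator (fun _ => 2 / ε * NK b ε w) V' := by
    intro V' hV'
    by_cases hc : V' ∈ T
    · rw [Set.indicator_of_mem hc]
      have g1 := (hGap d M l z μ E V hP (hflat V hV)).2.2.2.2.2.1 w
      have g2 := (hGap d M l z μ E V hP (hflat V hV)).2.2.2.2.2.2.1 w
      have g3 := (hGap d M l z μ E V' hP (hflat V' hV')).2.2.2.2.2.1 w
      have g4 := (hGap d M l z μ E V' hP (hflat V' hV')).2.2.2.2.2.2.1 w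
      have g5 := sqn_le_NK hFour b ε w
      have g6 : 2 * sqn w ≤ 2 / ε * NK b ε w := by
        rw [div_mul_eq_mul_div, le_div_iff₀ hε]
        nlinarith
      have g7 : 0 ≤ a * NK b ε w := mul_nonneg ha hNK
      rw [abs_le]
      constructor <;> linarith
    · rw [Set.indicator_of_notMem hc, add_zero]
      have := hT3 V' hV' hc
      rw [Matrix.sub_mulVec, ip_sub_right, abs_sub_comm] at this
      exact this
  have hintT : IntegrableOn (fun V' : Tor d M → ℝ => a * NK b ε w +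
      T.indicator (fun _ => 2 / ε * NK b ε w) V') G (gau d M v) :=
    (hconst _).add hind
  have hmain : |ip w ((BB l E V - cvM b) *ᵥ w)| * m ≤ a * NK b ε w * m + NK b ε w / 20 := by
    rw [← abs_of_pos hm0, ← abs_mul, hdiff, abs_of_pos hm0]
    calc |∫ V' in G, (ip w (BB l E V *ᵥ w) - ip w (BB l E V' *ᵥ w)) ∂(gau d M v)| ≤
          ∫ V' in G, |ip w (BB l E V *ᵥ w) - ip w (BB l E V' *ᵥ w)| ∂(gau d M v) :=
          abs_integral_le_integral_abs
      _ ≤ ∫ V' in G, (a * NK b ε w + T.indicator (fun _ => 2 / ε * NK b ε w) V')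
            ∂(gau d M v) := by
          refine setIntegral_mono_on ?_ hintT hGm hpt
          exact ((hconst _).sub hintq).abs
      _ = a * NK b ε w * m + 2 / ε * NK b ε w * ((gau d M v).restrict G T).toReal := by
          rw [integral_add (hconst _) hind, setIntegral_const,
            integral_indicator hT, integral_const, smul_eq_mul, smul_eq_mul]
          rw [mul_comm]
          congr 1
          rw [mul_comm]
          congr 1
          simp [Measure.real]
      _ ≤ a * NK b ε w * m + 2 / ε * NK b ε w * (ε / 40) := by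
          refine add_le_add le_rfl (mul_le_mul_of_nonneg_left ?_ (by positivity))
          have h1 : ((gau d M v).restrict G T) ≤ ENNReal.ofReal (ε / 40) :=
            (Measure.restrict_apply_le G T).trans hT2
          have := ENNReal.toReal_mono ENNReal.ofReal_ne_top h1
          rwa [ENNReal.toReal_ofReal (by positivity)] at this
      _ = a * NK b ε w * m + NK b ε w / 20 := by
          congr 1
          field_simp
          ring
  have h8 : NK b ε w / 20 ≤ 1 / 10 * NK b ε w * m := by nlinarith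
  have h9 : |ip w ((BB l E V - cvM b) *ᵥ w)| * m ≤ ((a + 1 / 10) * NK b ε w) * m := by nlinarith
  exact le_of_mul_le_mul_right h9 hm0

/-- AVG -/
theorem avg (hMeas : MeasStmt) (hKhb : KhbStmt) (hRot : RotStmt) (hPath : PathStmt)
    (hGap : GapStmt) (hFour : FourStmt) : AvgStmt := by
  intro d hd K
  obtain ⟨Ck, hCk, hK⟩ := hKhb d hd
  obtain ⟨Cp, hCp, hPa⟩ := hPath d hd
  refine ⟨120 * (Cp + 3) + Real.exp 1 * (3200 * (K + d) * (K + d + 1) * Ck), by positivity, ?_⟩
  intro M l _ z μ E δ v b ε Cg p hP hδ hδ' hv hbe hmean hε hε2 hlM hCg hKG hbig hp hp2 hG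
  have hprob : IsProbabilityMeasure (gau d M v) := gau_isProb v
  have hv0 : (0 : ℝ) < v := hv
  have hd1 : (1 : ℝ) ≤ d := by exact_mod_cast hd
  have hl1 : (1 : ℝ) ≤ l := by exact_mod_cast hP.hl
  have hM3 : (3 : ℝ) ≤ M := by exact_mod_cast hP.hM
  have hM0 : (0 : ℝ) < M := by linarith
  have hlM' : (l : ℝ) ≤ M := by exact_mod_cast hP.hlM.le
  have hlog : 1 ≤ Real.log M := by
    rw [Real.le_log_iff_exp_le hM0]
    linarith [Real.exp_one_lt_d9]
  have hlogε : 0 < Real.log (1 / ε) := Real.log_pos (by rw [one_lt_div hε]; linarith)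
  set κ : ℝ := K + d with hκ
  have hκ1 : 1 ≤ κ := by
    have : (0 : ℝ) ≤ K := Nat.cast_nonneg K
    linarith
  -- the parameters
  set s : ℝ := Real.sqrt (2 * κ * v * Real.log M) with hs
  have hs0 : 0 ≤ s := Real.sqrt_nonneg _
  have hs2 : s ^ 2 = 2 * κ * v * Real.log M := Real.sq_sqrt (by positivity)
  set q : ℕ := ⌈κ * Real.log M⌉₊ with hq
  have hq0 : κ * Real.log M ≤ q := Nat.le_ceil _
  have hq1 : (q : ℝ) ≤ (κ + 1) * Real.log M := by
    have := Nat.ceil_lt_add_one (show 0 ≤ κ * Real.log M by positivity)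
    nlinarith
  have hq2 : 1 ≤ q := by
    have : (0 : ℝ) < q := lt_of_lt_of_le (by positivity) hq0
    exact_mod_cast this
  have hMκ : Real.exp (-(κ * Real.log M)) * (M : ℝ) ^ d = 1 / (M : ℝ) ^ K := by
    have h1 : Real.exp (κ * Real.log M) = (M : ℝ) ^ K * (M : ℝ) ^ d := by
      rw [hκ, ← pow_add, ← Real.rpow_natCast, Real.rpow_def_of_pos hM0]
      congr 1
      push_cast
      ring
    rw [Real.exp_neg, h1]
    field_simp
  have hp2' : (M : ℝ) ^ d * (2 * Real.exp (-(s ^ 2 / (2 * v)))) ≤ 2 / (M : ℝ) ^ K := by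
    have h1 : s ^ 2 / (2 * v) = κ * Real.log M := by
      rw [hs2]
      field_simp
    rw [h1]
    refine le_of_eq ?_
    calc (M : ℝ) ^ d * (2 * Real.exp (-(κ * Real.log M))) =
          2 * (Real.exp (-(κ * Real.log M)) * (M : ℝ) ^ d) := by ring
      _ = 2 / (M : ℝ) ^ K := by rw [hMκ]; ring
  have hl0 : (0 : ℝ) < (l : ℝ) ^ d := by positivity
  have h3 : ∀ V ∈ Gd d M δ z μ, gau d M v {D | (∀ y, |D y| ≤ s) ∧
      ∃ w, 1 / 40 * NK b ε w < |dB l E V D w|} ≤ ENNReal.ofReal (1 / (M : ℝ) ^ K) := by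
    intro V hV
    refine (hK M l z μ E V b ε Cg s (1 / 40) v q hP (FlatD.mono hV hP.hμ.le hδ') hbe hε hε2 hCg hKG
      hs0 (by norm_num) hq2).trans (ENNReal.ofReal_le_ofReal ?_)
    have h4 : q * Ck * Cg * s ^ 2 * Real.log M ^ d * Real.log (1 / ε) * (l : ℝ) ^ 4 /
        ((l : ℝ) ^ d * ε * (1 / 40) ^ 2) ≤ Real.exp (-1) := by
      rw [div_le_iff₀ (by positivity), hs2]
      have h5 : Real.exp 1 * (3200 * κ * (κ + 1) * Ck) * Cg * v * Real.log M ^ (d + 2) *
          Real.log (1 / ε) * (l : ℝ) ^ 4 ≤ ε * (l : ℝ) ^ d := by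
        refine le_trans ?_ hbig
        have : Real.exp 1 * (3200 * κ * (κ + 1) * Ck) ≤
            120 * (Cp + 3) + Real.exp 1 * (3200 * κ * (κ + 1) * Ck) := by linarith
        gcongr
      have h6 : Real.exp (-1) * Real.exp 1 = 1 := by rw [← Real.exp_add]; simp
      calc (q : ℝ) * Ck * Cg * (2 * κ * v * Real.log M) * Real.log M ^ d * Real.log (1 / ε) *
            (l : ℝ) ^ 4 ≤ ((κ + 1) * Real.log M) * Ck * Cg * (2 * κ * v * Real.log M) *
            Real.log M ^ d * Real.log (1 / ε) * (l : ℝ) ^ 4 := by gcongr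
        _ = Real.exp (-1) * (Real.exp 1 * (3200 * κ * (κ + 1) * Ck) * Cg * v *
            Real.log M ^ (d + 2) * Real.log (1 / ε) * (l : ℝ) ^ 4) * (1 / 40) ^ 2 := by
            rw [show Real.exp (-1) * (Real.exp 1 * (3200 * κ * (κ + 1) * Ck) * Cg * v *
              Real.log M ^ (d + 2) * Real.log (1 / ε) * (l : ℝ) ^ 4) * (1 / 40) ^ 2 =
              (Real.exp (-1) * Real.exp 1) * ((3200 * κ * (κ + 1) * Ck) * Cg * v *
              Real.log M ^ (d + 2) * Real.log (1 / ε) * (l : ℝ) ^ 4) * (1 / 40) ^ 2 by ring, h6]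
            ring
        _ ≤ Real.exp (-1) * (ε * (l : ℝ) ^ d) * (1 / 40) ^ 2 := by gcongr
        _ = Real.exp (-1) * ((l : ℝ) ^ d * ε * (1 / 40) ^ 2) := by ring
    have h7 : 0 ≤ q * Ck * Cg * s ^ 2 * Real.log M ^ d * Real.log (1 / ε) * (l : ℝ) ^ 4 /
        ((l : ℝ) ^ d * ε * (1 / 40) ^ 2) := by positivity
    calc (M : ℝ) ^ d * (q * Ck * Cg * s ^ 2 * Real.log M ^ d * Real.log (1 / ε) * (l : ℝ) ^ 4 /
          ((l : ℝ) ^ d * ε * (1 / 40) ^ 2)) ^ q ≤ (M : ℝ) ^ d * Real.exp (-1) ^ q :=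
          mul_le_mul_of_nonneg_left (pow_le_pow_left₀ h7 h4 q) (by positivity)
      _ = (M : ℝ) ^ d * Real.exp (-q) := by
          rw [← Real.exp_nat_mul]
          congr 2
          ring
      _ ≤ (M : ℝ) ^ d * Real.exp (-(κ * Real.log M)) :=
          mul_le_mul_of_nonneg_left (Real.exp_le_exp.2 (neg_le_neg hq0)) (by positivity)
      _ = 1 / (M : ℝ) ^ K := by rw [mul_comm, hMκ]
  have hMK : (0 : ℝ) < (M : ℝ) ^ K := by positivity
  have hSB := prob_SB hMeas (l := l) (E := E) (δ := δ) (z := z) (μ := μ) (b := b) (ε := ε)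
    (ρ := 1 / 40) (s := s) hv hs0 hp (p2 := 2 / (M : ℝ) ^ K) (p3 := 1 / (M : ℝ) ^ K)
    (by positivity) (by positivity) hG hp2' h3
  set N : ℕ := ⌈Cp * (l : ℝ) ^ 4 / ε⌉₊ + 1 with hN
  have hN1 : 1 ≤ N := by omega
  have hN2 : Cp * (l : ℝ) ^ 4 / ε ≤ N := by
    rw [hN]
    push_cast
    have := Nat.le_ceil (Cp * (l : ℝ) ^ 4 / ε)
    linarith
  have hMε : 1 / ε ≤ M := by
    rw [div_le_iff₀ hε]
    linarith
  have hN3 : (N : ℝ) + 1 ≤ (Cp + 3) * (M : ℝ) ^ 4 := by
    have h1 := Nat.ceil_lt_add_one (show 0 ≤ Cp * (l : ℝ) ^ 4 / ε by positivity)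
    have h2 : (l : ℝ) ^ 4 / ε ≤ (M : ℝ) ^ 4 := by
      rw [div_le_iff₀ hε]
      calc (l : ℝ) ^ 4 = (l : ℝ) ^ 3 * l := by ring
        _ ≤ (M : ℝ) ^ 3 * (ε * M) := by gcongr
        _ = (M : ℝ) ^ 4 * ε := by ring
    have h3 : (1 : ℝ) ≤ (M : ℝ) ^ 4 := one_le_pow₀ (by linarith)
    rw [hN]
    push_cast
    rw [mul_div_assoc] at h1 ⊢
    have h4 : Cp * ((l : ℝ) ^ 4 / ε) ≤ Cp * (M : ℝ) ^ 4 := mul_le_mul_of_nonneg_left h2 hCp.le
    linarith
  have hSA := prob_SA hMeas hRot (N := N) hSB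
  have hη : 0 < ε / 40 := by positivity
  have hmk := markov hMeas hRot hη hSA
  have hε3 : ε / 40 < 1 := by linarith
  -- the inclusion
  have hsub : {V | ¬ (FlatD δ z μ V ∧ ∀ w, |ip w ((BB l E V - cvM b) *ᵥ w)| ≤ 1 / 4 * NK b ε w)} ⊆
      {V | ENNReal.ofReal (ε / 40) ≤
        gau d M v (Prod.mk V ⁻¹' SA d M l E δ z μ b ε (1 / 40) s N)} := by
    intro V hV
    rw [Set.mem_ofPred_eq]
    by_contra hcon
    rw [not_le] at hcon
    apply hV
    have hrot0 : ∀ V' : Tor d M → ℝ, rotV (ang N 0) V V' = V := fun V' => by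
      funext x
      simp [rotV, ang]
    have hVG : V ∈ Gd d M δ z μ := by
      by_contra hc
      have h1 : Prod.mk V ⁻¹' SA d M l E δ z μ b ε (1 / 40) s N = Set.univ := by
        refine Set.eq_univ_of_forall fun V' => ?_
        refine Set.mem_iUnion₂.2 ⟨0, Finset.mem_range.2 (by omega), ?_⟩
        refine Or.inl ?_
        show rotV (ang N 0) V V' ∉ Gd d M δ z μ
        rw [hrot0]
        exact hc
      rw [h1, measure_univ] at hcon
      have h2 : ENNReal.ofReal (ε / 40) ≤ 1 := by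
        rw [ENNReal.ofReal_le_one]
        exact hε3.le
      exact absurd hcon (not_lt.2 h2)
    refine ⟨hVG, fun w => ?_⟩
    have h9 := average hGap hMeas hFour hP hδ' hmean hε hp2 hp hG hVG
      (T := Prod.mk V ⁻¹' SA d M l E δ z μ b ε (1 / 40) s N)
      (measurable_prodMk_left (meas_SA hMeas hRot l E δ z μ b ε (1 / 40) s N)) hcon.le (w := w)
      (a := 2 * (1 / 40) + 1 / 16) (by norm_num) (fun V' hV' hnT => by
        have hgood : ∀ j ≤ N, (rotV (ang N j) V V', rotD (ang N j) V V') ∉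
            SB d M l E δ z μ b ε (1 / 40) s := fun j hj hc =>
          hnT (Set.mem_iUnion₂.2 ⟨j, Finset.mem_range.2 (by omega), hc⟩)
        have hfl : ∀ j ≤ N, rotV (ang N j) V V' ∈ Gd d M δ z μ := fun j hj => by
          by_contra hc
          exact hgood j hj (Or.inl hc)
        refine hPa M l z μ E b ε (1 / 40) N V V' hP hε (by linarith) (by norm_num) hN1 hN2
          (fun j hj => FlatD.mono (hfl j hj) hP.hμ.le hδ') (fun j hj w => ?_) w
        by_contra hc
        rw [not_le] at hc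
        refine hgood j hj.le (Or.inr ?_)
        by_cases hD : ∀ y, |rotD (ang N j) V V' y| ≤ s
        · exact Or.inr ⟨hfl j hj.le, hD, w, hc⟩
        · rw [not_forall] at hD
          obtain ⟨y, hy⟩ := hD
          exact Or.inl ⟨y, not_le.1 hy⟩)
    have hNK := NK_nonneg b ε w
    refine h9.trans ?_
    nlinarith
  refine (measure_mono hsub).trans (hmk.trans (ENNReal.ofReal_le_ofReal ?_))
  have h10 : 0 ≤ p + 1 / (M : ℝ) ^ K := by positivity
  have h11 : p + (2 / (M : ℝ) ^ K + 1 / (M : ℝ) ^ K) ≤ 3 * (p + 1 / (M : ℝ) ^ K) := by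
    have : 2 / (M : ℝ) ^ K + 1 / (M : ℝ) ^ K = 3 * (1 / (M : ℝ) ^ K) := by ring
    rw [this]
    linarith
  calc ((N : ℝ) + 1) * (p + (2 / (M : ℝ) ^ K + 1 / (M : ℝ) ^ K)) / (ε / 40) =
        40 * (1 / ε) * (((N : ℝ) + 1) * (p + (2 / (M : ℝ) ^ K + 1 / (M : ℝ) ^ K))) := by
        field_simp
    _ ≤ 40 * M * (((Cp + 3) * (M : ℝ) ^ 4) * (3 * (p + 1 / (M : ℝ) ^ K))) := by gcongr
    _ = 120 * (Cp + 3) * (M : ℝ) ^ 5 * (p + 1 / (M : ℝ) ^ K) := by ring
    _ ≤ (120 * (Cp + 3) + Real.exp 1 * (3200 * κ * (κ + 1) * Ck)) * (M : ℝ) ^ 7 *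
        (p + 1 / (M : ℝ) ^ K) := by
        have h12 : (M : ℝ) ^ 5 ≤ (M : ℝ) ^ 7 := pow_le_pow_right₀ (by linarith) (by norm_num)
        have h13 : 0 ≤ Real.exp 1 * (3200 * κ * (κ + 1) * Ck) := by positivity
        have h14 : 120 * (Cp + 3) ≤ 120 * (Cp + 3) + Real.exp 1 * (3200 * κ * (κ + 1) * Ck) := by
          linarith
        gcongr
    _ = (120 * (Cp + 3) + Real.exp 1 * (3200 * κ * (κ + 1) * Ck)) * (M : ℝ) ^ 7 *
        (p + 1 / (M : ℝ) ^ K) := rfl

end Pool.Agent.IR.H62A
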